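import Pool.Agent.D0H78.CG.Main

/-!
# The Mumford-Tate conjecture, with reductive groups, from the numbers of the classes

Let `X` be a smooth projective complex variety with nonzero cohomology, defined over a finitely
generated field `F` over which all motivated classes (André) on the powers `X ^ n` are defined. Let
`m n`, `h n` and `t_ℓ n` be the numbers of linearly independent motivated, Hodge and `ℓ`-adic Tate
classes (of all codimensions) on the product of `n + 1` copies of `X`. Let `C` be a constant such that
`h n ≤ C m n` for infinitely many `n` and `t_ℓ n ≤ C m n` for infinitely many `n`. Then:

1. For all powers of `X` the Tate classes are exactly the `ℚ_ℓ`-linear combinations of the Hodge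
   classes.
2. One subgroup of finite index of the Galois group respects all Hodge classes on all powers of
   `X`: it is contained in the group of the `ℚ_ℓ`-points of the Mumford-Tate group (the group of all
   symmetries of the cohomology which respect the Hodge classes).
3. The subspaces of `H^i(X^m, ℚ_ℓ)` which are stable under an open subgroup of the Galois group are
   exactly the subspaces which are stable under the Mumford-Tate group, and they have complements of
   the same kind: the representations on `H^i(X^m, ℚ_ℓ)` of the Galois group and of all its open
   subgroups are semisimple. For this the determinants of the stable subspaces of `H^i(X^m, ℚ_ℓ)` are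
   supposed to have dual lines (`HasDualLines`).

In terms of groups (theorem of Chevalley: a subgroup of an algebraic group is the stabiliser of a line
in a representation) 1, 2 and 3 mean that the identity component `G_ℓ°` of the `ℓ`-adic monodromy group
is `MT ⊗ ℚ_ℓ`, which is reductive. This is the Mumford-Tate conjecture for `X`, and `MT` is the
identity component of `G_mot` as `h n ≤ C m n` (see `HodgeTateIndex`, where 1 is proved; it does not
imply 2 and 3: a Borel subgroup of `SL(2)` has the same invariants as `SL(2)` in all tensor powers of
the standard representation. So nothing could be said about `G_ℓ°` if it was not known to be reductive.)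

The hypothesis on the Galois representations (`HasDualLines`) is that for every potentially stable
subspace `U` the dual of `det U` occurs, up to a Tate twist and a finite extension of `F`, as a
subrepresentation of the cohomology of a power of `X`. It is a theorem for all varieties `X` which can
be defined over `ℚ` or `ℚ(t_1, …, t_s)`: then the tensor product of the conjugates of the line
`det U` is a representation of the Galois group of this field, which is Hodge-Tate and pure, so by
class field theory a Tate twist up to a finite character; so the dual of `det U` is the tensor product
of the other conjugates. For any `F` one can replace `X` by its Weil restriction.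

Proof. As `t_ℓ n / m n` is bounded infinitely often, the Tate classes on all powers are generated by
finitely many Tate classes under the motivated correspondences; so they are fixed by one subgroup of
finite index. They are combinations of Hodge classes, whose pairing is nondegenerate by the
Hodge-Riemann relations. For a stable subspace `U` with basis `w_1, …, w_r` and a class `x` on the
dual line the antisymmetrised product of `w_1 ⊗ ⋯ ⊗ w_r` and `x` is a Tate class on a power of `X`. Its
product with some Tate class `y` has a nonzero trace, and the alternating form
`tr((u_1 ∧ ⋯ ∧ u_r) x y)` gives a complement of `U`. The symmetries multiply this class by a constant, so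
they preserve `U`.
-/

open CategoryTheory AlgebraicGeometry Filter

universe u

namespace Pool.Agent.Results.MP_b8862a_ag.BoundedIndexMumfordTate

open Pool.Agent.H914 Pool.Agent.Y121.AHS Pool.Agent.D0H78.CG

variable {k : Type u} [Field k] {𝒱 : VarClass k} {ops : CycleOps 𝒱}

/-- **The Mumford-Tate conjecture, with reductive groups, from the numbers of the classes.** -/
theorem result (T : HodgeTheory ops) (X : 𝒱.Obj) [Nontrivial (T.W.H X)]
    (G : GaloisAction T.W X (Motivated T X)) (C : ℕ)
    (hh : ∃ᶠ n in atTop, hodgeDim T X n ≤ C * motDim T X n)
    (ht : ∃ᶠ n in atTop, tateDim G n ≤ C * motDim T X n) :
    TateAre G (Hodge T X) ∧ (Potentially fun g => IsSym (Hodge T X) (G.χ g) (G.ρ g)) ∧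
      ∀ m, HasDualLines G m → ∀ i (U : Sub G m), U ≤ degX G m i →
        (IsStable G i U ↔ StableUnder G (Hodge T X) U) ∧
        (IsStable G i U → HasComplement G i U) :=
  main T X G C hh ht

end Pool.Agent.Results.MP_b8862a_ag.BoundedIndexMumfordTate
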