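import Pool.Agent.D0H78.MT.LConv

/-!
# Hodge classes, Tate classes and motivated classes: finite indices imply the Mumford-Tate
# conjecture

Let `X` be a smooth projective complex variety with nonzero cohomology, defined over a finitely
generated field over which all motivated classes (André) on the powers `X ^ n` are defined. Let
`m n`, `h n` and `t_ℓ n` be the numbers of linearly independent motivated, Hodge and `ℓ`-adic Tate
classes (of all codimensions) on the product of `n + 1` copies of `X`.

* There are `c ∈ {1, 2, …, ∞}`, which depends only on the motivated classes, and
  `N, N_ℓ ∈ {c, ∞}` such that `h n / m n` converges to `N` and `t_ℓ n / m n` to `N_ℓ`.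
  (In terms of groups `c` is the number of connected components of the motivic Galois group
  `G_mot` of `X`, and `N`, `N_ℓ` are the indices of the Mumford-Tate group and, if it is reductive,
  of the identity component `G_ℓ°` of the `ℓ`-adic monodromy group.)
* If `N` and `N_ℓ` are finite, for instance if there are at most `C m n` Hodge classes and at most
  `C m n` Tate classes for a constant `C`, then for all powers of `X` the Tate classes are exactly
  the `ℚ_ℓ`-linear combinations of the Hodge classes: for a reductive group `G_ℓ°` this is
  `MT ⊗ ℚ_ℓ = G_ℓ°`, the Mumford-Tate conjecture for `X`. If `N` is finite and the conjecture does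
  not hold, the proportion of the Hodge classes among the Tate classes on `X ^ n` tends to zero.
* If `N_ℓ` is finite, the Tate classes on all powers are linear combinations of rational classes
  which do not depend on `ℓ`, and which are Hodge classes, and `N_ℓ = c`, also for all other `ℓ'`
  for which `N_ℓ'` is finite; if `N_ℓ` is infinite, the proportion of the motivated classes among
  the Tate classes tends to zero.
* If all Hodge classes on the powers of `X` are motivated (for instance for abelian varieties, by
  the theorem of André), we have `N = c = 1`, so that `N_ℓ` is `1` or `∞`: either the motivated
  Mumford-Tate conjecture holds for `X` and `ℓ`, or the motivated classes have density zero in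
  the Tate classes.

The rational classes which occur are the universal classes: the classes fixed by the identity
component of `G_mot`. They are defined without tannakian categories, as the classes which are Tate
classes for all possible actions (of any group, with any coefficients) which respect the motivated
classes.

Idea of the proof. If the index of the invariants of a group of operators (commuting with the
motivated correspondences) over the motivated classes is finite, then these invariants are
generated, under motivated correspondences, by finitely many classes. So the powers `x ⊗ ⋯ ⊗ x` of
an invariant `x` are values at motivated classes of polynomial functions in finitely many fixed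
classes, and any other group which acts has on `x` only finitely many values: `x` is fixed by a
subgroup of finite index. This is applied to the Galois group and to the operators
`2 ^ (p - q)` which define the Hodge classes; the coefficients are compared by Galois descent from
the complex numbers to `ℚ`.
-/

open CategoryTheory AlgebraicGeometry

universe u

namespace Pool.Agent.Results.MP_b8862a_ag.HodgeTateIndex

open Pool.Agent.H914 Pool.Agent.Y121.AHS Pool.Agent.D0H78.MTL

variable {k : Type u} [Field k] {𝒱 : VarClass k} {ops : CycleOps 𝒱}

/-- **The index law for Hodge and Tate classes over the motivated classes.** -/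
theorem result (T : HodgeTheory ops) (X : 𝒱.Obj) [Nontrivial (T.W.H X)] (h u m : ℕ → ℕ)
    (hh : ∀ n, h n = spanDim T.W.K (Hodge T X n)) (hu : ∀ n, u n = spanDim T.W.K (Universal T X n))
    (hm : ∀ n, m n = spanDim T.W.K (Motivated T X n)) :
    ∃ c N : ℕ∞, 1 ≤ c ∧ HasLimit u m c ∧ HasLimit h m N ∧ (N = c ∨ N = ⊤) ∧
      Imply (Motivated T X) (Universal T X) ∧ Imply (Universal T X) (Hodge T X) ∧
      (c = 1 ↔ Imply (Universal T X) (Motivated T X)) ∧
      (N = 1 ↔ Imply (Hodge T X) (Motivated T X)) ∧
      (N ≠ ⊤ → Imply (Hodge T X) (Universal T X)) ∧
      ∀ G : GaloisAction T.W X, ∃ N' : ℕ∞, HasLimit G.tateDim m N' ∧ (N' = c ∨ N' = ⊤) ∧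
        (N' = 1 ↔ G.TateAre (Motivated T X)) ∧
        (N' ≠ ⊤ → G.TateAre (Universal T X)) ∧
        (N ≠ ⊤ → N' ≠ ⊤ → G.TateAre (Hodge T X)) ∧
        (N ≠ ⊤ → N' = ⊤ → HasLimit G.tateDim h ⊤) :=
  main T X h u m hh hu hm

end Pool.Agent.Results.MP_b8862a_ag.HodgeTateIndex
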