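import Pool.Agent.D0H90.MJ.Main

/-!
# Tate classes of a motive with one Jordan block at one place

Let `V = k ^ n` be the `ℓ`-adic realization of a polarized pure motive `M` of weight `w` over a number
field `F` (or over a finitely generated field with a point over `F`: `Γ` is the Galois group of `F`, with
`θ` the identity, or the fundamental group of a model), with Hodge numbers `h q = h^{q,w-q}`, of
dimension `n ≠ 7`. Let `P` be a place of `F` above a prime number `p ≠ ℓ` where the monodromy operator
has one Jordan block. At the other places of `F` above `p` the motive also has one Jordan block, or
satisfies the weight-monodromy conjecture, for example because it has good reduction; there is no such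
condition if `F = ℚ`, or if there is only one place above `p`. Suppose that one of the following holds.

* `n ≤ 3`.
* The Hodge numbers of `M` (the numbers `q` with the multiplicities `h^{q,w-q}`) are not an arithmetic
  progression. For example: some `h^{q,w-q} ≥ 2`, but not `h^{w/2,w/2} = n`; or all Hodge numbers are at
  most `1`, but the gaps between the `q` which occur are not equal.
* Some element of `Γ` acts as a unipotent matrix which is neither the identity nor has one Jordan block
  (another place of bad reduction, or the geometric monodromy).
* For some element of `Γ`, for example one Frobenius element, three of the eigenvalues are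
  multiplicatively independent.

**Theorem.** Every multilinear form on `V`, with an even number of variables, on which a subgroup of
finite index of `Γ` acts through scalars is a linear combination of products of the polarization on pairs
of variables.

So all Tate classes in the even tensor powers of `M` and its dual, with all twists, and over all finite
extensions, are algebraic if the polarization is, and motivated in any case. They are fixed, up to the
similitude character, by all similitudes of the polarization. As an algebraic group is determined by its
semi-invariants, `𝒢(V)^0 k^*` is the group of all symplectic similitudes (`n` even) or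
of all orthogonal similitudes (`n` odd; it is connected then) of the polarization. The motivic Galois
group of `M` lies in this group and contains `𝒢(V)^0`, and `k^* ⊆ 𝒢(V)^0` if `w ≠ 0`: this is
the last equality `G_{mot,ℓ}(M) = 𝒢(V)^0` of the motivated Mumford-Tate conjecture for `M`.

The structure `MotivicRep` (file `Pool.Agent.R390.SF.HnDef`) collects the properties of the
realization of a polarized pure motive; `OneBlockAt` and `IsSen` record the properties of the monodromy
operator (Grothendieck) and of the Sen operator (Sen, Faltings).

The proof. At a place with one Jordan block the eigenvalues of a Frobenius element are `α q^{-j}`,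
`0 ≤ j < n`, and the polarization gives `α ^ 2 = q^{w+n-1}`: the weight-monodromy conjecture is true
there. So `V` is irreducible (`Pool.Agent.Results.MP_c184fc_ag.MonodromyOnePlace`, helper76; the
theorem of Minkowski and the Hodge-Tate weights). Let `L` be the Lie algebra of all endomorphisms of `V`
which kill all the semi-invariant forms. It contains the monodromy operator `N`, it is normalized
by `Γ`, and it acts irreducibly, because the subspaces which are stable under `N` are determined by
their dimension. So it contains a principal triple `N, H, f` (library `Pool.Agent.Y114.MU`). The
functions `x` on `{0, ..., n - 2}` for which `N^j v ↦ x_j N^{j+1} v` is in `L` form an algebra, because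
the second difference of `(j + 1) (n - 1 - j) x_j` is an injective operator on them. So they are the
functions which are constant on the classes of an equivalence relation, and a combinatorial argument
shows that there is one class, or the classes are the `{j, n - 2 - j}` (for `n = 7` there is one more
possibility, the Lie algebra of type `G_2`). In the second case `L` is the Lie algebra of the
polarization, and the first fundamental theorem of invariant theory applies. In the first case `L` is
spanned by `N`, `H` and `f`. It is normalized by the Sen operator, whose eigenvalues are then in
arithmetic progression; all its nonzero nilpotent elements have one Jordan block; and the elements of its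
normalizer do not have three independent eigenvalues.
-/

set_option autoImplicit false

namespace Pool.Agent.Results.MP_b8862a_ag.OneJordanBlock

open Pool.Agent.R390.SF Pool.Agent.Y800 Pool.Agent.D0H90.MJ

/-- **All Tate classes come from the polarization.** -/
theorem result (F : SubFld ℚ) [FiniteDimensional ℚ F] (ℓ w : ℕ) [Fact ℓ.Prime] (h : ℕ → ℕ)
    (k : Type) [NormedField k] [NormedAlgebra ℚ_[ℓ] k] [IsUltrametricDist k] (Γ : Type) [Group Γ]
    (n : ℕ) (A : MotivicRep F ℓ w h k Γ n)
    -- the monodromy operators at the places above a prime number different from `ℓ`
    (p : ℕ) (hp : p.Prime) (hpℓ : ℓ ≠ p) (N : Ideal ZBar → Matrix (Fin n) (Fin n) k)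
    (hN : ∀ P : Ideal ZBar, P.IsMaximal → (p : ZBar) ∈ P →
      OneBlockAt A p P (N P) ∨ WeightMonodromyAt A p P (N P))
    -- one Jordan block at one place
    (P : Ideal ZBar) (hP : P.IsMaximal) (hpP : (p : ZBar) ∈ P) (hNP : OneBlockAt A p P (N P))
    (hτ : ∃ τ : F.fixingSubgroup, InInertia P τ ∧ (A.ρ (A.θ τ) : Matrix (Fin n) (Fin n) k) =
      ∑ i ∈ Finset.range n, ((i.factorial : k)⁻¹) • N P ^ i)
    (h7 : n ≠ 7)
    (hc : n ≤ 3 ∨ (HasSen A ∧ ¬ IsProgression h w n) ∨ HasSmallUnipotent A ∨ HasThreeIndependent A)
    -- semi-invariant forms
    (S : Type) [Fintype S] [DecidableEq S] (hS : Even (Fintype.card S))
    (φ : MultilinearMap k (fun _ : S => Fin n → k) k) (hφ : SemiInvariant A φ) :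
    FromPolarization A φ :=
  main A hp hpℓ N hN hP hpP hNP hτ h7 hc hS hφ

end Pool.Agent.Results.MP_b8862a_ag.OneJordanBlock
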