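import Pool.Agent.D0H93.MT.Main

/-!
# The motivated Mumford-Tate conjecture is decided by the second tensor power

Let `M` be a pure André motive of weight `w`, `V = ℚ ^ ι` its Betti realization with its Hodge structure
and a polarization `Q`, and `ρ` the action of the Galois group `Γ` of a field of definition `k` on the
`ℓ`-adic realization `V_K = K ^ ι`, `K = ℚ_ℓ` (any field of characteristic zero is allowed), in the
coordinates given by the comparison isomorphism. We suppose that `ρ` is semisimple and that the
motivated endomorphisms of the tensor powers of `M` are defined over a finite extension of `k`. Let `Mot n`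
be the set of the motivated endomorphisms of `V^{⊗n}` (it contains the class `u ⊗ v ↦ Q(u, v) Q⁻¹`
of the polarization). For a family `P` of endomorphisms of the tensor powers let `ann P` be the Lie
algebra of the group of all `g` such that `g ⊗ ⋯ ⊗ g` commutes with all members of `P`. So

* `ann Mot = Lie G_mot(M)`, `ann S.IsHodge = Lie MT(V)` and `ann (IsTate ρ) = Lie 𝒢(V_K)` (for `w ≠ 0`;
  for `w = 0` the scalars are added), where `S.IsHodge n` are the endomorphisms of the Hodge structure
  `V^{⊗n}` and `IsTate ρ n` the endomorphisms of `V_K^{⊗n}` which are fixed by a subgroup of finite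
  index of `Γ` (Tate classes);
* an endomorphism which is killed by `ann Mot` is a motivated one up to the finite group of the
  components of `G_mot(M)` (*weakly motivated*).

Let `M` have no factors of type IV: the involution given by `Q` is trivial on the centre of the algebra
of weakly motivated endomorphisms of `V`. Then the following are equivalent.

1. All Hodge endomorphisms of `V^{⊗n}` and all Tate endomorphisms of `V_K^{⊗n}` are weakly motivated,
   for all `n`.
2. `Lie MT(V) = Lie G_mot(M)` and `Lie 𝒢(V_K) = Lie G_mot(M) ⊗ K`: the motivated Mumford-Tate
   conjecture for the identity components.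
3. All Hodge endomorphisms of `V ⊗ V` and all Tate endomorphisms of `V_K ⊗ V_K` are weakly motivated.
4. All Hodge endomorphisms of `V` and all Tate endomorphisms of `V_K` are weakly motivated, and so are
   the two endomorphisms of `V ⊗ V` and `V_K ⊗ V_K` which correspond to the orthogonal projectors of
   `End V` onto `Lie MT(V)` and of `End V_K` onto `Lie 𝒢(V_K)` (for the trace form).

For an abelian variety `A` without factors of type IV, `V = H¹(A)`, the endomorphisms of `V ⊗ V` are classes
of codimension two on `A⁴`; with the theorems of Deligne, André and Faltings the Mumford-Tate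
conjecture for `A` and all its powers is equivalent to the statement that all Tate classes of
codimension two on `A⁴`, or just one of them, are combinations of Hodge classes.

Ideas of the proof. The annihilators are Lie algebras which contain the replicas (in the sense of
Chevalley) of their elements, so that the radical of the trace form on them consists of nilpotent elements, and it
vanishes by Engel's theorem and semisimplicity. So there is a projector onto `Lie MT(V)`, and it is a
Hodge class; if `Lie G_mot` commutes with it and with `End V`, `Lie MT(V)` is an ideal of it, with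
a central complement, which is zero if there are no factors of type IV. An endomorphism which is
killed by the annihilator of all Tate classes is itself a Tate class (`isTate_of_killed`): this is true for
all groups and all fields of characteristic zero, and is proved with derivations of the field of functions
of the Zariski closure of a subgroup of finite index.
-/

namespace Pool.Agent.Results.MP_b8862a_ag.SecondTensorPower

open Pool.Agent.D0H93.MT

/-- **The second tensor power decides.** -/
theorem result {ι : Type} [Fintype ι] [DecidableEq ι] [Nonempty ι] {w : ℤ}
    (S : HodgeStructure ι w) (Q : Matrix ι ι ℚ) (hQ : S.IsPolarization Q)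
    (Mot : Family ι ℚ) (hM : ∀ n c, Mot n c → S.IsHodge n c) (hMQ : Mot 2 (formClass Q))
    (hIV : NoTypeIV (ann Mot) Q)
    (K : Type) [Field K] [CharZero K] {Γ : Type} [Group Γ]
    (ρ : Γ →* (Matrix ι ι K)ˣ) (hss : SemisimpleRep ρ)
    (hT : ∀ n c, Mot n c → IsTate ρ n (bc K c)) :
    [(∀ n c, S.IsHodge n c → ∀ x ∈ ann Mot, Kills x c) ∧
        (∀ n c, IsTate ρ n c → ∀ x ∈ ann (ext K Mot), Kills x c),
      ann Mot = ann S.IsHodge ∧ ann (ext K Mot) = ann (IsTate ρ),
      (∀ c, S.IsHodge 2 c → ∀ x ∈ ann Mot, Kills x c) ∧
        (∀ c, IsTate ρ 2 c → ∀ x ∈ ann (ext K Mot), Kills x c),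
      ((∀ c, S.IsHodge 1 c → ∀ x ∈ ann Mot, Kills x c) ∧
        ∀ φ, IsProjector (ann S.IsHodge) φ → ∀ x ∈ ann Mot, Kills x (tens φ)) ∧
      ((∀ c, IsTate ρ 1 c → ∀ x ∈ ann (ext K Mot), Kills x c) ∧
        ∀ φ, IsProjector (ann (IsTate ρ)) φ → ∀ x ∈ ann (ext K Mot), Kills x (tens φ))].TFAE :=
  main S Q hQ Mot hM hMQ hIV K ρ hss hT

end Pool.Agent.Results.MP_b8862a_ag.SecondTensorPower
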